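import Pool.Agent.N71.EX.Stm
import Pool.Agent.Helper923.HMertens

/-!
# Project EX, parts MER and PEU
-/

set_option autoImplicit false

namespace Pool.Agent.N478.EX

open Finset Filter NumberField Pool.Agent.H38R2.CG Pool.Agent.N71.EX
open scoped Classical

/-- Mertens: the product over the primes up to `P` -/
lemma mertens_prod : ∃ C : ℝ, 0 < C ∧ ∀ P : ℕ, 2 ≤ P →
    ∏ p ∈ (Icc 1 P).filter Nat.Prime, (1 - 1 / (p : ℝ))⁻¹ ≤ C * Real.log P := by
  obtain ⟨C, hC0, hC⟩ := Pool.Agent.Helper923.HMertens.mertens_ratio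
  have hl2 : 0 < Real.log 2 := Real.log_pos (by norm_num)
  refine ⟨Real.exp (2 + C / Real.log 2) / Real.log 2, by positivity, fun P hP => ?_⟩
  have hPr : (2 : ℝ) ≤ P := by exact_mod_cast hP
  have hlP : 0 < Real.log P := Real.log_pos (by linarith)
  have h2 : ∀ p ∈ (Icc 1 P).filter Nat.Prime, (2 : ℝ) ≤ p := by
    intro p hp
    rw [mem_filter] at hp
    exact_mod_cast hp.2.two_le
  have h0 : ∏ p ∈ (Icc 1 P).filter Nat.Prime, (1 - 1 / (p : ℝ))⁻¹ =
      ∏ p ∈ (Icc 1 P).filter Nat.Prime, (1 + 1 / ((p : ℝ) - 1)) := by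
    apply Finset.prod_congr rfl
    intro p hp
    have h3 := h2 p hp
    have h4 : (p : ℝ) - 1 ≠ 0 := by linarith
    have h5 : (p : ℝ) ≠ 0 := by linarith
    have h6 : (1 - 1 / (p : ℝ)) = (p - 1) / p := by field_simp
    rw [h6, inv_div]
    field_simp
    ring
  rw [h0]
  have h1 : ∏ p ∈ (Icc 1 P).filter Nat.Prime, (1 + 1 / ((p : ℝ) - 1)) ≤
      Real.exp (∑ p ∈ (Icc 1 P).filter Nat.Prime, 1 / ((p : ℝ) - 1)) := by
    rw [Real.exp_sum]
    apply Finset.prod_le_prod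
    · intro p hp
      have := h2 p hp
      have : 0 ≤ 1 / ((p : ℝ) - 1) := div_nonneg zero_le_one (by linarith)
      linarith
    · intro p _
      have := Real.add_one_le_exp (1 / ((p : ℝ) - 1))
      linarith
  have h3 : ∑ p ∈ (Icc 1 P).filter Nat.Prime, 1 / ((p : ℝ) - 1) ≤
      ∑ p ∈ (Ioc 2 P).filter Nat.Prime, (1 : ℝ) / p + 2 := by
    have e1 : (Icc 1 P).filter Nat.Prime = insert 2 ((Ioc 2 P).filter Nat.Prime) := by
      ext p
      simp only [mem_filter, mem_Icc, mem_insert, mem_Ioc]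
      constructor
      · rintro ⟨⟨a1, a2⟩, a3⟩
        rcases a3.two_le.eq_or_lt with h | h
        · exact Or.inl h.symm
        · exact Or.inr ⟨⟨h, a2⟩, a3⟩
      · rintro (rfl | ⟨⟨a1, a2⟩, a3⟩)
        · exact ⟨⟨by norm_num, hP⟩, Nat.prime_two⟩
        · exact ⟨⟨by omega, a2⟩, a3⟩
    rw [e1, sum_insert (by simp)]
    have e2 : ∀ p ∈ (Ioc 2 P).filter Nat.Prime, 1 / ((p : ℝ) - 1) =
        (1 : ℝ) / p + (1 / ((p : ℝ) - 1) - 1 / p) := by
      intro p _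
      ring
    rw [sum_congr rfl e2, sum_add_distrib]
    have e3 : ∑ p ∈ (Ioc 2 P).filter Nat.Prime, (1 / ((p : ℝ) - 1) - 1 / p) ≤
        ∑ p ∈ Ioc 2 P, (1 / ((p : ℝ) - 1) - 1 / p) := by
      apply sum_le_sum_of_subset_of_nonneg (filter_subset _ _)
      intro p hp _
      rw [mem_Ioc] at hp
      have hp2 : (2 : ℝ) < p := by exact_mod_cast hp.1
      have : 1 / (p : ℝ) ≤ 1 / ((p : ℝ) - 1) :=
        one_div_le_one_div_of_le (by linarith) (by linarith)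
      linarith
    have e4 : ∀ n : ℕ, 2 ≤ n → ∑ p ∈ Ioc 2 n, (1 / ((p : ℝ) - 1) - 1 / p) = 1 / 2 - 1 / n := by
      intro n hn
      induction n, hn using Nat.le_induction with
      | base => simp
      | succ n hn ih =>
        rw [sum_Ioc_succ_top (by omega), ih]
        push_cast
        ring
    rw [e4 P hP] at e3
    have e5 : (0 : ℝ) ≤ 1 / P := by positivity
    have e6 : (1 : ℝ) / ((2 : ℕ) - 1) = 1 := by norm_num
    push_cast at e6 ⊢
    linarith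
  have h4 := (abs_le.1 (hC 2 P le_rfl hP)).2
  push_cast at h4
  refine h1.trans ?_
  have h5 : ∑ p ∈ (Icc 1 P).filter Nat.Prime, 1 / ((p : ℝ) - 1) ≤
      (2 + C / Real.log 2) + Real.log (Real.log P / Real.log 2) := by linarith
  refine (Real.exp_le_exp.2 h5).trans (le_of_eq ?_)
  rw [Real.exp_add, Real.exp_log (by positivity)]
  ring

lemma chi_abs_le (D : ℤ) (n : ℕ) : |chi D n| ≤ 1 := by
  unfold chi
  rw [abs_mul, abs_pow]
  have h1 : |chi2 D| ≤ 1 := by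
    unfold chi2
    split_ifs <;> simp
  have h2 : |jacobiSym D (n / 2 ^ padicValNat 2 n)| ≤ 1 := by
    rcases jacobiSym.trichotomy D (n / 2 ^ padicValNat 2 n) with h | h | h <;> simp [h]
  calc |chi2 D| ^ padicValNat 2 n * |jacobiSym D (n / 2 ^ padicValNat 2 n)| ≤ 1 * 1 := by
        gcongr
        exact pow_le_one₀ (abs_nonneg _) h1
    _ = 1 := one_mul 1

lemma fac (D : ℕ) {p : ℕ} (hp : p.Prime) : 0 < 1 - 1 / (p : ℝ) ∧
    0 < 1 - (chi D p : ℝ) / p ∧ 1 - 1 / (p : ℝ) ≤ 1 - (chi D p : ℝ) / p ∧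
    1 - 1 / (p : ℝ) ≤ (1 - (chi D p : ℝ) / p)⁻¹ := by
  have hp2 : (2 : ℝ) ≤ p := by exact_mod_cast hp.two_le
  have hc : |(chi D p : ℝ)| ≤ 1 := by exact_mod_cast chi_abs_le D p
  obtain ⟨hc1, hc2⟩ := abs_le.1 hc
  have hp0 : (0 : ℝ) < p := by linarith
  have hi : 1 / (p : ℝ) ≤ 1 / 2 := one_div_le_one_div_of_le (by norm_num) hp2
  have hi0 : 0 < 1 / (p : ℝ) := by positivity
  have e : (chi D p : ℝ) / p = (chi D p : ℝ) * (1 / p) := by ring
  have h1 : (chi D p : ℝ) / p ≤ 1 / p := by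
    rw [e]
    nlinarith
  have h2 : -(1 / (p : ℝ)) ≤ (chi D p : ℝ) / p := by
    rw [e]
    nlinarith
  have h3 : 0 < 1 - (chi D p : ℝ) / p := by linarith
  refine ⟨by linarith, h3, by linarith, ?_⟩
  rw [le_inv_comm₀ (by linarith) h3, le_inv_comm₀ h3 (by linarith)]
  rw [← one_div, le_div_iff₀ h3]
  nlinarith

theorem t_PEU : E_PEU := by
  obtain ⟨C, hC, hM⟩ := mertens_prod
  refine ⟨C, hC, fun D hD => ?_⟩
  refine le_trans ?_ (hM D hD.1)
  unfold PE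
  apply Finset.prod_le_prod
  · intro p hp
    rw [mem_filter] at hp
    exact inv_nonneg.2 (fac D hp.2).2.1.le
  · intro p hp
    rw [mem_filter] at hp
    exact inv_anti₀ (fac D hp.2).1 (fac D hp.2).2.2.1

theorem t_MER : E_MER := by
  obtain ⟨C, hC, hM⟩ := mertens_prod
  refine ⟨1 / C, by positivity, fun D hD z hz hzD => ?_⟩
  have hD2 : 2 ≤ D := hD.1
  have hl : 0 < Real.log D := Real.log_pos (by exact_mod_cast hD.1)
  set P : ℕ → Finset ℕ := fun n => (Finset.Icc 1 n).filter Nat.Prime with hP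
  have hpr : ∀ n, ∀ p ∈ P n, p.Prime := fun n p hp => (mem_filter.1 hp).2
  have hsub : P z ⊆ P D := by
    intro p hp
    rw [hP, mem_filter, mem_Icc] at hp ⊢
    exact ⟨⟨hp.1.1, hp.1.2.trans hzD⟩, hp.2⟩
  have h1 : ∏ p ∈ P D, (1 - 1 / (p : ℝ)) ≤ VV D z * PE D D := by
    have e1 : VV D z = (∏ p ∈ P z, (1 - 1 / (p : ℝ))) * ∏ p ∈ P z, (1 - (chi D p : ℝ) / p) :=
      prod_mul_distrib
    have e2 : PE D D = (∏ p ∈ P D \ P z, (1 - (chi D p : ℝ) / p)⁻¹) *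
        ∏ p ∈ P z, (1 - (chi D p : ℝ) / p)⁻¹ := (prod_sdiff hsub).symm
    have e3 : ∏ p ∈ P D, (1 - 1 / (p : ℝ)) = (∏ p ∈ P D \ P z, (1 - 1 / (p : ℝ))) *
        ∏ p ∈ P z, (1 - 1 / (p : ℝ)) := (prod_sdiff hsub).symm
    have e4 : (∏ p ∈ P z, (1 - (chi D p : ℝ) / p)) * ∏ p ∈ P z, (1 - (chi D p : ℝ) / p)⁻¹ = 1 := by
      rw [← prod_mul_distrib]
      apply prod_eq_one
      intro p hp
      exact mul_inv_cancel₀ (fac D (hpr z p hp)).2.1.ne'
    have e5 : VV D z * PE D D = (∏ p ∈ P D \ P z, (1 - (chi D p : ℝ) / p)⁻¹) *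
        ∏ p ∈ P z, (1 - 1 / (p : ℝ)) := by
      rw [e1, e2]
      calc _ = (∏ p ∈ P D \ P z, (1 - (chi D p : ℝ) / p)⁻¹) * (∏ p ∈ P z, (1 - 1 / (p : ℝ))) *
          ((∏ p ∈ P z, (1 - (chi D p : ℝ) / p)) * ∏ p ∈ P z, (1 - (chi D p : ℝ) / p)⁻¹) := by ring
        _ = _ := by rw [e4, mul_one]
    rw [e5, e3]
    apply mul_le_mul_of_nonneg_right
    · apply Finset.prod_le_prod
      · intro p hp
        exact (fac D (hpr D p (mem_sdiff.1 hp).1)).1.le
      · intro p hp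
        exact (fac D (hpr D p (mem_sdiff.1 hp).1)).2.2.2
    · exact prod_nonneg fun p hp => (fac D (hpr z p hp)).1.le
  have h2 := hM D hD2
  rw [prod_inv_distrib] at h2
  have h3 : 0 < ∏ p ∈ P D, (1 - 1 / (p : ℝ)) := prod_pos fun p hp => (fac D (hpr D p hp)).1
  have h4 : (C * Real.log D)⁻¹ ≤ ∏ p ∈ P D, (1 - 1 / (p : ℝ)) := inv_le_of_inv_le₀ h3 h2
  have h5 : 1 / C = (C * Real.log D)⁻¹ * Real.log D := by
    field_simp
  calc 1 / C = (C * Real.log D)⁻¹ * Real.log D := h5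
    _ ≤ (VV D z * PE D D) * Real.log D := mul_le_mul_of_nonneg_right (h4.trans h1) hl.le
    _ = VV D z * Real.log D * PE D D := by ring

end Pool.Agent.N478.EX
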